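import Pool.Agent.helper17.RX.Spec

/-!
# Row LBA of project RX
-/

set_option autoImplicit false

namespace TP.TW

open DP MeasureTheory Finset

private theorem LBA_inj (n : ℕ) : Function.Injective (phi (n := n)) := by
  intro p q h
  unfold phi at h
  have h1 := congrArg Prod.fst h
  have h2 := congrArg Prod.snd h
  simp only at h1 h2
  have h3 : ((p.2 : ℕ) : ℤ) = ((q.2 : ℕ) : ℤ) := h2
  have h4 : ((p.1 : ℕ) : ℤ) = ((q.1 : ℕ) : ℤ) := by omega
  exact Prod.ext (Fin.ext (by exact_mod_cast h4)) (Fin.ext (by exact_mod_cast h3))

theorem LBA (br2 : BR2_stmt) : LBA_stmt := by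
  classical
  intro n b hb
  refine ⟨⟨?_, ?_, ?_⟩, ?_, ?_⟩
  · intro β
    unfold lb
    simp
  · intro i β
    refine ⟨?_, ?_⟩
    · unfold lb
      apply image_subset_image
      intro p hp
      obtain ⟨l, hl, h⟩ := mem_biUnion.1 hp
      rw [mem_range] at hl
      exact mem_biUnion.2 ⟨l, mem_range.2 (by omega), h⟩
    · unfold lb
      exact image_subset_image (subset_univ _)
  · intro i β β' h
    have e : ∀ l ∈ range (i + 1 - 1), b l (fun p => β (phi p)) = b l (fun p => β' (phi p)) := by
      intro l hl
      rw [mem_range] at hl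
      apply hb
      intro i' hi' p hp
      apply h
      unfold lb
      exact mem_image.2 ⟨p, mem_biUnion.2 ⟨i', mem_range.2 (by omega), hp⟩, rfl⟩
    unfold lb
    rw [biUnion_congr rfl e]
  · intro v hv
    obtain ⟨p, -, rfl⟩ := mem_image.1 hv
    unfold br
    rw [if_pos]
    unfold phi
    simp only
    omega
  · intro R
    rw [sum_image (fun p _ q _ h => LBA_inj n h)]
    have h1 : ∀ p : Fin n × Fin n, Pr {β : V → Bool | phi p ∈ lb b R β} =
        (∑ x : Fin n × Fin n → Bool, if p ∈ (range (R - 1)).biUnion (fun l => b l x) then (1 : ℝ) else 0) /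
          2 ^ (n * n) := by
      intro p
      have e := br2 n (fun x => p ∈ (range (R - 1)).biUnion (fun l => b l x))
      have e2 : {β : V → Bool | phi p ∈ lb b R β} =
          {β : V → Bool | p ∈ (range (R - 1)).biUnion (fun l => b l (fun q => β (phi q)))} := by
        ext β
        unfold lb
        constructor
        · intro h
          obtain ⟨q, hq, e3⟩ := mem_image.1 h
          have : q = p := LBA_inj n e3
          rw [this] at hq
          exact hq
        · intro h
          exact mem_image.2 ⟨p, h, rfl⟩
      rw [e2]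
      refine e.trans ?_
      rw [card_filter, Nat.cast_sum]
      refine congrArg (fun r : ℝ => r / 2 ^ (n * n)) (sum_congr rfl ?_)
      intro x _
      by_cases h : p ∈ (range (R - 1)).biUnion (fun l => b l x)
      · rw [if_pos h, if_pos h]
        simp
      · rw [if_neg h, if_neg h]
        simp
    rw [sum_congr rfl (fun p _ => h1 p), ← sum_div]
    unfold cost
    apply div_le_div_of_nonneg_right _ (by positivity)
    rw [sum_comm]
    apply sum_le_sum
    intro x _
    rw [sum_boole]
    norm_cast
    apply card_le_card
    intro p hp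
    obtain ⟨l, hl, h⟩ := mem_biUnion.1 (mem_filter.1 hp).2
    rw [mem_range] at hl
    exact mem_biUnion.2 ⟨l, mem_range.2 (by omega), h⟩

end TP.TW
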